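import Pool.Agent.H.MP_738f0f_lc.A

set_option autoImplicit false

/-! Infinitely often equal functions and infinitely often captured values. -/

namespace Pool.Agent.H.MP_65fbb9_lc

open Filter Pool.Agent.Lib.helper21 Encodable Pool.Agent.Lib.helper21.PR Finset
open Pool.Agent.H.MP_738f0f_lc

attribute [local irreducible] Primrec Computable

abbrev O : ℕ → Bool := fun _ => false

variable {A : ℕ → Bool} {g h G H k m : ℕ → ℕ}

theorem up {α β : Type} [Primcodable α] [Primcodable β] {f : α → β} (h : CI O f) : CI A f :=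
  h.trans (ci_const _)

theorem comp_nat {f : ℕ → ℕ} (h : CI O f) : Computable f := by
  unfold Computable; exact RecursiveIn.partrec_of_const (s := Part.some 0) h.red

theorem comp_bool {f : ℕ → Bool} (h : CI O f) : Computable f :=
  (c_comp (f := fun n : ℕ => decide (n = 1)) (by fun_prop)
    (comp_nat (f := fun n => (f n).toNat) (by fun_prop))).of_eq fun n => by cases f n <;> rfl

theorem lg : CI A (Nat.log 2) :=
  CI.mk (R := fun n r => n = 0 ∧ r = 0 ∨ 2 ^ r ≤ n ∧ n < 2 ^ (r + 1)) (by fun_prop) fun n r => by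
    rcases eq_or_ne n 0 with rfl | c
    · simp [eq_comm]
    · simp [c, Nat.log_eq_iff (.inr ⟨one_lt_two, c⟩)]

theorem lg_add {j i : ℕ} (h : i < 2 ^ j) : Nat.log 2 (2 ^ j + i) = j :=
  Nat.log_eq_of_pow_le_of_lt_pow (Nat.le_add_right _ _) (by rw [pow_succ]; omega)

def IO (A : ℕ → Bool) (h : ℕ → ℕ) : Prop :=
  ∃ x, CI A x ∧ ∀ y, CI O y → (∀ᶠ n in atTop, y n < h n) → ∃ᶠ n in atTop, x n = y n

def Cap (A : ℕ → Bool) (H k : ℕ → ℕ) : Prop :=
  ∃ X : ℕ → List ℕ, CI A X ∧ (∀ᶠ j in atTop, (X j).length ≤ k j) ∧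
    ∀ y, CI O y → (∀ᶠ j in atTop, y j < H j) → ∃ᶠ j in atTop, y j ∈ X j

theorem IO.mono (a : IO A h) (e : ∀ᶠ n in atTop, g n ≤ h n) : IO A g :=
  a.imp fun _ b => ⟨b.1, fun y c d => b.2 y c ((d.and e).mono fun _ k => k.1.trans_le k.2)⟩

theorem Cap.mono (a : Cap A H k) (e : ∀ᶠ n in atTop, G n ≤ H n) (e' : ∀ᶠ n in atTop, k n ≤ m n) :
    Cap A G m :=
  a.imp fun _ b => ⟨b.1, (b.2.1.and e').mono fun _ k => k.1.trans k.2,
    fun y c d => b.2.2 y c ((d.and e).mono fun _ k => k.1.trans_le k.2)⟩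

theorem io_iff (pos : ∀ n, 0 < h n) : IO A h ↔ ∃ x : ℕ → ℕ,
    TuringReducible (fun n => Part.some (x n)) (Fn.orc A) ∧
      ∀ y, Computable y → (∀ n, y n < h n) → ∃ᶠ n in atTop, x n = y n := by
  refine ⟨fun ⟨x, a, b⟩ => ⟨x, a.red, fun y c d => b y (Computable.ci c) (.of_forall d)⟩,
    fun ⟨x, a, b⟩ => ⟨x, .of_red a, fun y c d => ?_⟩⟩
  obtain ⟨N, hN⟩ := eventually_atTop.1 d
  refine ((b (fun n => if n < N then 0 else y n) (comp_nat (by fun_prop)) fun n => ?_).and_eventually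
    (eventually_ge_atTop N)).mono fun n k => by simpa [k.2.not_gt] using k.1
  split_ifs with e
  exacts [pos n, hN n (not_lt.1 e)]

theorem fib (f : ℕ → ℕ) (S : Finset ℕ) : ∀ l : List ℕ,
    ∑ a ∈ S, (l.filter fun c => decide (f c = a)).length ≤ l.length
  | [] => by simp
  | c :: l => by
    have h1 := fib f S l
    have h2 : ∑ a ∈ S, (if f c = a then 1 else 0) ≤ 1 := by rw [sum_ite_eq]; split_ifs <;> simp
    refine le_trans (sum_le_sum fun a _ => ?_) (sum_add_distrib.trans_le (add_le_add h1 h2))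
    rw [List.filter_cons]
    split_ifs <;> simp_all

theorem trick (hH : Primrec H) (hk : Primrec k)
    (a : Cap A (fun j => H j * G j) fun j => m j * k j) : Cap A H m ∨ Cap A G k := by
  obtain ⟨X, h1, h2, h3⟩ := a
  refine (em _).imp_right fun b => ?_
  simp only [Cap, not_exists, not_and, not_forall, not_frequently] at b
  obtain ⟨y, b1, b2, b3⟩ := b (fun j => (List.range (H j)).filter fun a =>
    decide (k j < ((X j).filter fun c => decide (c % H j = a)).length))
    (ci_comp (g := fun j => (j, X j)) (f := fun z : ℕ × List ℕ => (List.range (H z.1)).filter fun a =>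
      decide (k z.1 < (z.2.filter fun c => decide (c % H z.1 = a)).length)) (ci_prim (by fun_prop))
      (by fun_prop)) (h2.mono fun j hj => by
        have := (card_nsmul_le_sum _ _ (k j + 1) fun a ha => (mem_filter.1 ha).2).trans ((fib
          (· % H j) ((range (H j)).filter fun a =>
            k j < ((X j).filter fun c => decide (c % H j = a)).length) (X j)).trans hj)
        exact Nat.le_of_mul_le_mul_right (this.trans (Nat.mul_le_mul_left (m j) (k j).le_succ)) (k j).succ_pos)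
  have b4 := up (A := A) b1
  refine ⟨fun j => ((X j).filter fun c => decide (c % H j = y j)).map (· / H j),
    ci_comp (g := fun j => ((j, y j), X j)) (f := fun z : (ℕ × ℕ) × List ℕ =>
      (z.2.filter fun c => decide (c % H z.1.1 = z.1.2)).map (· / H z.1.1)) (ci_prim (by fun_prop))
      (by fun_prop), (b2.and b3).mono fun j c => by simpa [c.1] using c.2, fun z c1 c2 => ?_⟩
  refine ((h3 (fun j => y j + H j * z j) (by fun_prop) ((b2.and c2).mono fun j c => by
    nlinarith [c.1, c.2])).and_eventually b2).mono fun j c => List.mem_map.2 ⟨_, List.mem_filter.2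
      ⟨c.1, by simp [Nat.mod_eq_of_lt c.2]⟩, ?_⟩
  rw [Nat.add_mul_div_left _ _ (by omega), Nat.div_eq_of_lt c.2, zero_add]

theorem IO.cap {w : ℕ → ℕ} (a : IO A g) (hw : CI O w) (hk : Primrec k) (t : Tendsto w atTop atTop)
    (e : ∀ n, n < k (w n)) (e' : ∀ᶠ n in atTop, G (w n) ≤ g n) : Cap A G k := by
  obtain ⟨x, h1, h2⟩ := a
  exact ⟨fun j => (List.range (k j)).map x, by fun_prop, by simp, fun y c d => t.frequently
    ((h2 (fun n => y (w n)) (by fun_prop) (((t.eventually d).and e').mono fun _ k =>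
      k.1.trans_le k.2)).mono fun n k => List.mem_map.2 ⟨n, List.mem_range.2 (e n), k⟩)⟩

theorem Cap.io {B : ℕ → ℕ} (hB : Primrec B) (e : ∀ j, ∀ i < 2 ^ j, h (2 ^ j + i) ≤ B j + 1)
    (a : Cap A (fun j => (B j + 1) ^ 2 ^ j) (2 ^ ·)) : IO A h := by
  obtain ⟨X, h1, h2, h3⟩ := a
  have := lg (A := A)
  refine ⟨fun n => (X (Nat.log 2 n)).getD (n - 2 ^ Nat.log 2 n) 0 / (B (Nat.log 2 n) + 1) ^
    (n - 2 ^ Nat.log 2 n) % (B (Nat.log 2 n) + 1), ci_comp (g := fun n => ((n, Nat.log 2 n),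
      X (Nat.log 2 n))) (f := fun z : (ℕ × ℕ) × List ℕ => z.2.getD (z.1.1 - 2 ^ z.1.2) 0 /
        (B z.1.2 + 1) ^ (z.1.1 - 2 ^ z.1.2) % (B z.1.2 + 1)) (ci_prim (by fun_prop)) (by fun_prop),
    fun y c d => frequently_atTop.2 fun N => ?_⟩
  obtain ⟨z, a1, a2⟩ := RI.choice (Y := O) (R := fun j w : ℕ => w < (B j + 1) ^ 2 ^ j ∧
    ∀ i < 2 ^ j, w / (B j + 1) ^ i % (B j + 1) = y (2 ^ j + i) % (B j + 1)) (by fun_prop)
    fun j => digits _ _ _
  obtain ⟨M, hM⟩ := eventually_atTop.1 d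
  obtain ⟨j, ⟨b1, b2⟩, b3⟩ := (((h3 z a1 (.of_forall fun j => (a2 j).1)).and_eventually
    h2).and_eventually (eventually_ge_atTop (N + M))).exists
  obtain ⟨i, b4, b5⟩ := List.getElem_of_mem b1
  have := Nat.lt_two_pow_self (n := j)
  refine ⟨2 ^ j + i, by omega, ?_⟩
  simp only [lg_add (b4.trans_le b2), Nat.add_sub_cancel_left]
  rw [List.getD_eq_getElem _ _ b4, b5, (a2 j).2 i (b4.trans_le b2),
    Nat.mod_eq_of_lt ((hM _ (by omega)).trans_le (e j i (b4.trans_le b2)))]

theorem lg_top : Tendsto (Nat.log 2) atTop atTop := tendsto_atTop_atTop.2 fun b =>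
  ⟨2 ^ b, fun _ h => Nat.le_log_of_pow_le one_lt_two h⟩

theorem boost (r : ℕ) (a : IO A fun n => 2 ^ 2 ^ n) : IO A fun n => 2 ^ 2 ^ n ^ r := by
  have := lg (A := O)
  let B : ℕ → ℕ := fun j => 2 ^ 2 ^ (2 ^ (j + 1)) ^ r - 1
  have hB : Primrec B := by unfold B; fun_prop
  have e : ∀ j, B j + 1 = 2 ^ 2 ^ (2 ^ (j + 1)) ^ r := fun j => Nat.sub_add_cancel Nat.one_le_two_pow
  have h1 : ∀ s, Cap A (fun j => ((B j + 1) ^ 2 ^ j) ^ (s + 1)) (fun j => (2 ^ j) ^ (s + 1)) →
      Cap A (fun j => (B j + 1) ^ 2 ^ j) (2 ^ ·) := fun s => by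
    induction s with
    | zero => simp
    | succ s ih =>
      simp only [pow_succ' _ (s + 1)]
      exact fun k => (trick (by fun_prop) (by fun_prop) k).elim id ih
  refine Cap.io hB (fun j i hi => by rw [e, pow_succ]; gcongr <;> omega) (h1 (r + 1)
    ((a.cap (w := fun n => Nat.log 2 n / (r + 1) - 2) (k := fun j => 2 ^ ((j + 3) * (r + 1)))
      (by fun_prop) (by fun_prop) ((tendsto_sub_atTop_nat 2).comp
        ((Nat.tendsto_div_const_atTop r.succ_ne_zero).comp lg_top)) (fun n =>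
          (Nat.lt_pow_succ_log_self one_lt_two n).trans_le (Nat.pow_le_pow_right two_pos ?_)) ?_).mono
      (.of_forall fun _ => le_rfl) ((eventually_ge_atTop (3 * r + 3)).mono fun j hj => by
        rw [← pow_mul]; exact Nat.pow_le_pow_right two_pos (by nlinarith))))
  · have := Nat.lt_mul_div_succ (Nat.log 2 n) r.succ_pos
    have : Nat.log 2 n / (r + 1) + 1 ≤ Nat.log 2 n / (r + 1) - 2 + 3 := by omega
    nlinarith
  · filter_upwards [lg_top.eventually_ge_atTop (2 * (r + 1)), eventually_ne_atTop 0] with n h2 h3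
    have h4 := Nat.div_mul_le_self (Nat.log 2 n) (r + 1)
    have h5 := (Nat.le_div_iff_mul_le r.succ_pos).2 h2
    obtain ⟨j, hj⟩ := Nat.exists_eq_add_of_le' h5
    rw [hj, Nat.add_sub_cancel, e, ← pow_mul, ← pow_mul, ← mul_assoc, ← pow_add]
    refine Nat.pow_le_pow_right two_pos ((Nat.mul_le_mul_left _ Nat.lt_two_pow_self.le).trans ?_)
    rw [← pow_add, ← pow_mul]
    refine Nat.pow_le_pow_right two_pos (le_trans ?_ ((Nat.pow_le_pow_right two_pos
      (hj ▸ h4)).trans (Nat.pow_log_le_self 2 h3)))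
    rw [show (j + 2) * (r + 1) = (j + 1) * r + (j + r + 2) by ring, pow_add]
    nlinarith [Nat.lt_two_pow_self (n := j + r + 2), Nat.one_le_two_pow (n := (j + 1) * r)]

end Pool.Agent.H.MP_65fbb9_lc
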