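import Pool.Agent.H.MP_65fbb9_lc.A
import Pool.Agent.H.MP_738f0f_lc.B

set_option autoImplicit false

/-! Lower density of agreement and infinitely often equal functions. -/

namespace Pool.Agent.H.MP_65fbb9_lc

open Filter Pool.Agent.Lib.helper21 Encodable Pool.Agent.Lib.helper21.PR Finset
open Pool.Agent.H.MP_738f0f_lc Pool.Agent.Lib.helper21.ML Pool.Agent.H.MP_fa2eca_lc Topology

attribute [local irreducible] Primrec Computable

/-- lower density of the set of positions where two sets agree -/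
noncomputable def ld (Y C : ℕ → Bool) : ℝ :=
  liminf (fun n : ℕ => (((range n).filter fun k => Y k = C k).card : ℝ) / (n : ℝ)) atTop

variable {A : ℕ → Bool}

theorem bd1 (Y C : ℕ → Bool) (n : ℕ) :
    (((range n).filter fun k => Y k = C k).card : ℝ) / (n : ℝ) ≤ 1 :=
  div_le_one_of_le₀ (Nat.cast_le.2 ((card_filter_le _ _).trans_eq (card_range n))) n.cast_nonneg

theorem le_ld {Y C : ℕ → Bool} {p : ℝ}
    (h : ∀ᶠ n in atTop, p ≤ (((range n).filter fun k => Y k = C k).card : ℝ) / (n : ℝ)) :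
    p ≤ ld Y C := le_liminf_of_le (isCoboundedUnder_ge_of_le _ (bd1 Y C)) h

theorem ld_le {Y C : ℕ → Bool} {p : ℝ}
    (h : ∃ᶠ n in atTop, (((range n).filter fun k => Y k = C k).card : ℝ) / (n : ℝ) ≤ p) :
    ld Y C ≤ p := liminf_le_of_frequently_le h (isBoundedUnder_of ⟨0, fun _ => by positivity⟩)

theorem ci_tb {α : Type} [Primcodable α] {f g : α → ℕ} (hf : CI A f) (hg : CI A g) :
    CI A fun a => Fn.tb (f a) (g a) :=
  ci_comp (f := fun z : ℕ × ℕ => Fn.tb z.1 z.2) (ci_prim Fn.tb_prim) (ci_pair hf hg)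

attribute [local fun_prop] ci_tb

theorem zero (a : IO A fun n => 2 ^ 2 ^ n ^ 2) : ∃ Y, CI A Y ∧ ∀ C, CI O C → ld Y C = 0 := by
  obtain ⟨x, h1, h2⟩ := a
  have := lg (A := A)
  have sq : CI A Nat.sqrt := ci_prim (p_sqrt .id)
  refine ⟨fun k => !Fn.tb (x ((Nat.log 2 k).sqrt + 1)) k, ci_comp (ci_prim .not) (by fun_prop),
    fun C hC => le_antisymm (le_of_forall_pos_le_add fun ε hε => ld_le (frequently_atTop.2
      fun N => ?_)) (le_ld (.of_forall fun _ => by positivity))⟩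
  obtain ⟨M, hM⟩ := exists_nat_one_div_lt hε
  obtain ⟨n, b1, b2⟩ := ((h2 (fun n => Fn.cd C (2 ^ n ^ 2)) (Computable.ci (Fn.cd_comp
    (Z := fun _ : ℕ => C) ((comp_bool hC).comp .snd) (by fun_prop))) (.of_forall fun _ =>
      Fn.cd_lt _ _)).and_eventually (eventually_ge_atTop (N + M + 1))).exists
  obtain ⟨m, rfl⟩ : ∃ m, n = m + 1 := ⟨n - 1, by omega⟩
  have b3 : ((range (2 ^ (m + 1) ^ 2)).filter fun k =>
      (!Fn.tb (x ((Nat.log 2 k).sqrt + 1)) k) = C k) ⊆ range (2 ^ m ^ 2) := fun k hk => by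
    obtain ⟨c1, c2⟩ := mem_filter.1 hk
    refine mem_range.2 (not_le.1 fun c => ?_)
    rw [← Nat.eq_sqrt'.2 ⟨Nat.le_log_of_pow_le one_lt_two c, Nat.log_lt_of_lt_pow
      (ne_of_gt (lt_of_lt_of_le (by positivity) c)) (mem_range.1 c1)⟩, b1,
      Fn.tb_cd _ _ _ (mem_range.1 c1)] at c2
    simp at c2
  have b4 : (M + 1) * 2 ^ m ^ 2 ≤ 2 ^ (m + 1) ^ 2 := by
    rw [show (m + 1) ^ 2 = (2 * m + 1) + m ^ 2 by ring, pow_add]
    exact Nat.mul_le_mul_right _ (le_trans (by omega) Nat.lt_two_pow_self.le)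
  refine ⟨2 ^ (m + 1) ^ 2, le_trans (by nlinarith) Nat.lt_two_pow_self.le, le_trans ?_
    (hM.le.trans_eq (zero_add _).symm)⟩
  rw [div_le_div_iff₀ (by positivity) (by positivity), one_mul, mul_comm]
  exact_mod_cast (Nat.mul_le_mul_left _ ((card_le_card b3).trans_eq (card_range _))).trans b4

theorem wsum (a b : ℕ) (Z : ℕ → Bool) : ∀ N,
    ∑ w ∈ range (2 ^ N), ∏ i ∈ range N, (if Fn.tb w i = Z i then a else b) = (a + b) ^ N
  | 0 => by simp
  | N + 1 => by
    rw [pow_succ, mul_two, sum_range_add, ← sum_add_distrib, pow_succ, ← wsum a b Z N, sum_mul]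
    refine sum_congr rfl fun w hw => ?_
    rw [prod_range_succ, prod_range_succ, prod_congr rfl (g := fun i => if Fn.tb w i = Z i then a else b)
      (f := fun i => if Fn.tb (2 ^ N + w) i = Z i then a else b) fun i hi => by rw [Fn.tb, Nat.testBit_two_pow_add_gt (mem_range.1 hi)]; rfl]
    simp only [Fn.tb, Nat.testBit_lt_two_pow (mem_range.1 hw), Nat.testBit_two_pow_add_eq]
    cases Z N <;> simp <;> ring

/-- Hamming distance on an initial segment -/
def ds (N : ℕ) (Z Z' : ℕ → Bool) : ℕ := ((range N).filter fun i => Z i ≠ Z' i).card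

theorem ds_tri (N : ℕ) (Y Z Z' : ℕ → Bool) : ds N Z Z' ≤ ds N Z Y + ds N Z' Y :=
  (card_le_card fun i hi => by
    simp only [mem_union, mem_filter] at hi ⊢; grind).trans (card_union_le _ _)

theorem ball (q : ℕ) (Z : ℕ → Bool) :
    ((range (2 ^ (8 * q))).filter fun w => ds (8 * q) (Fn.tb w) Z ≤ q).card * 4 ^ (7 * q) ≤
      5 ^ (8 * q) := by
  refine (card_nsmul_le_sum _ _ _ fun w hw => ?_).trans
    ((sum_le_sum_of_subset (filter_subset _ _)).trans_eq (wsum 4 1 Z _))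
  have h1 := (mem_filter.1 hw).2
  have h2 := card_filter_add_card_filter_not (s := range (8 * q)) fun i => Fn.tb w i = Z i
  rw [prod_ite, prod_const_one, mul_one, prod_const]
  rw [card_range] at h2
  exact Nat.pow_le_pow_right (by norm_num) (by unfold ds at h1; simp only [ne_eq] at h1; omega)

theorem code {q : ℕ} (hq : 0 < q) : ∀ s ≤ 2 ^ q, ∃ L : List ℕ, L.length = s ∧ ∀ u < s, ∀ v < u,
    q < ds (8 * q) (Fn.tb (L.getD u 0)) (Fn.tb (L.getD v 0))
  | 0, _ => ⟨[], rfl, by simp⟩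
  | s + 1, hs => by
    obtain ⟨L, h1, h2⟩ := code hq s (by omega)
    obtain ⟨w, h3, h4⟩ := exists_mem_notMem_of_card_lt_card (t := range (2 ^ (8 * q)))
      (s := (range s).biUnion fun v => (range (2 ^ (8 * q))).filter fun w =>
        ds (8 * q) (Fn.tb w) (Fn.tb (L.getD v 0)) ≤ q) (by
      refine Nat.lt_of_mul_lt_mul_right (a := 4 ^ (7 * q)) ((Nat.mul_le_mul_right _
        card_biUnion_le).trans_lt ?_)
      rw [sum_mul, card_range]
      refine (sum_le_card_nsmul _ _ _ fun v _ => ball q _).trans_lt ?_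
      rw [card_range, pow_mul, pow_mul, pow_mul, ← mul_pow]
      exact (Nat.mul_le_mul_right _ (by omega)).trans_lt ((mul_pow 2 _ _).symm.trans_lt
        (Nat.pow_lt_pow_left (by norm_num) hq.ne')))
    refine ⟨L ++ [w], by simp [h1], fun u hu v hv => ?_⟩
    rw [List.getD_append _ _ _ v (by omega)]
    rcases Nat.lt_succ_iff_lt_or_eq.1 hu with c | rfl
    · rw [List.getD_append _ _ _ u (by omega)]
      exact h2 u c v hv
    · rw [List.getD_append_right _ _ _ _ h1.le, h1, Nat.sub_self]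
      exact not_le.1 fun c => h4 (mem_biUnion.2 ⟨v, mem_range.2 hv, mem_filter.2 ⟨h3, c⟩⟩)

theorem decode {Y : ℕ → Bool} (hY : CI A Y) (h : ∀ C, CI O C → ld Y C < 1 / 64) :
    IO A fun n => 2 ^ 2 ^ n := by
  have := lg (A := O)
  obtain ⟨L, h1, h2⟩ := RI.choice (Y := O) (R := fun (n : ℕ) (L : List ℕ) => ∀ u < 2 ^ 2 ^ n, ∀ v < u,
    2 ^ n < ds (8 * 2 ^ n) (Fn.tb (L.getD u 0)) (Fn.tb (L.getD v 0)))
    (i_re (r_prim (by
      have : Primrec fun z : ℕ × ℕ => Fn.tb z.1 z.2 := Fn.tb_prim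
      unfold ds; fun_prop)))
    fun n => (code (by positivity) _ le_rfl).imp fun _ k => k.2
  have h3 : CI O fun z : ℕ × ℕ => (L z.1).getD z.2 0 :=
    ci_comp (f := fun z : List ℕ × ℕ => z.1.getD z.2 0) (g := fun z : ℕ × ℕ => (L z.1, z.2))
      (ci_prim (by fun_prop)) (by fun_prop)
  generalize hE : (fun n v => (L n).getD v 0) = E
  simp only [show ∀ n v, (L n).getD v 0 = E n v from fun _ _ => hE ▸ rfl] at h2 h3
  have h4 := up (A := A) h3
  obtain ⟨x, h5, h6⟩ := RI.choice (Y := A) (R := fun n v : ℕ => ∀ u < 2 ^ 2 ^ n,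
    2 ^ n < 2 * ds (8 * 2 ^ n) (Fn.tb (E n u)) (fun i => Y (8 * 2 ^ n + i)) ∨ u = v)
    (by unfold ds; fun_prop) fun n => by
      by_cases c : ∃ v < 2 ^ 2 ^ n, 2 * ds (8 * 2 ^ n) (Fn.tb (E n v))
        (fun i => Y (8 * 2 ^ n + i)) ≤ 2 ^ n
      · obtain ⟨v, c1, c2⟩ := c
        refine ⟨v, fun u hu => (lt_or_ge _ _).imp_right fun c => by_contra fun e => ?_⟩
        have a := ds_tri (8 * 2 ^ n) (fun i => Y (8 * 2 ^ n + i)) (Fn.tb (E n u)) (Fn.tb (E n v))
        have b := ds_tri (8 * 2 ^ n) (fun i => Y (8 * 2 ^ n + i)) (Fn.tb (E n v)) (Fn.tb (E n u))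
        rcases Nat.lt_or_gt_of_ne e with e | e
        · have := h2 n v c1 u e; omega
        · have := h2 n u hu v e; omega
      · exact ⟨0, fun u hu => .inl (not_le.1 fun e => c ⟨u, hu, e⟩)⟩
  refine ⟨x, h5, fun y c d => by_contra fun e => (h (fun k => !Fn.tb (E (Nat.log 2 k - 3)
    (y (Nat.log 2 k - 3))) (k - 2 ^ Nat.log 2 k)) (ci_comp (ci_prim .not) (by fun_prop))).not_ge
      (le_ld ?_)⟩
  obtain ⟨N, hN⟩ := eventually_atTop.1 ((not_frequently.1 e).and d)
  filter_upwards [lg_top.eventually_ge_atTop (N + 4), eventually_ne_atTop 0] with m a1 a2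
  obtain ⟨n, hn⟩ : ∃ n, Nat.log 2 m = n + 4 := ⟨Nat.log 2 m - 4, by omega⟩
  have a3 := Nat.lt_pow_succ_log_self one_lt_two m
  have a4 := Nat.pow_log_le_self 2 a2
  rw [hn] at a1 a3 a4
  have a5 := (h6 n _ (hN n (by omega)).2).resolve_right (Ne.symm (hN n (by omega)).1)
  have a6 : ds (8 * 2 ^ n) (Fn.tb (E n (y n))) (fun i => Y (8 * 2 ^ n + i)) ≤ _ :=
    card_le_card_of_injOn (t := (range m).filter fun k => Y k = !Fn.tb (E (Nat.log 2 k - 3)
      (y (Nat.log 2 k - 3))) (k - 2 ^ Nat.log 2 k)) (8 * 2 ^ n + ·) (fun i hi => by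
        obtain ⟨b1, b2⟩ := mem_filter.1 (mem_coe.1 hi)
        have b3 : 8 * 2 ^ n = 2 ^ (n + 3) := by ring
        rw [mem_range, b3] at b1
        simp only [b3] at b2
        simp only [mem_coe, mem_filter, mem_range, b3, lg_add b1, Nat.add_sub_cancel,
          Nat.add_sub_cancel_left]
        exact ⟨by rw [pow_succ] at a4; omega, Bool.eq_not_iff.2 b2.symm⟩) fun _ _ _ _ => Nat.add_left_cancel
  rw [div_le_div_iff₀ (by norm_num) (by positivity)]
  rw [pow_add 2 n] at a4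
  rw [Nat.pow_succ, pow_add 2 n] at a3
  exact_mod_cast (by omega)

theorem fac_le (n : ℕ) : n.factorial ≤ 2 ^ n ^ 2 :=
  n.factorial_le_pow.trans (by rw [sq, pow_mul]; exact Nat.pow_le_pow_left Nat.lt_two_pow_self.le _)

theorem io_fac : (IO A fun n => 2 ^ n.factorial) ↔ IO A fun n => 2 ^ 2 ^ n :=
  ⟨fun h => h.mono ((eventually_ge_atTop 8).mono fun _ k =>
    Nat.pow_le_pow_right two_pos (fac (K := 2) k)),
    fun h => (boost 2 h).mono (.of_forall fun n => Nat.pow_le_pow_right two_pos (fac_le n))⟩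

theorem gf_red (g : ℕ → ℕ) : TuringReducible (Fn.orc (gf g)) fun n => Part.some (g n) := by
  have p : Primrec fun w : ℕ => (decide (w.unpair.2 = w.unpair.1.unpair.2)).toNat := by fun_prop
  have q : Primrec fun w : ℕ => w.unpair.1 := by fun_prop
  exact RecursiveIn.iff_nat.2 ((Nat.RecursiveIn.comp (Primrec.nat_iff.1 p).recursiveIn
    (Nat.RecursiveIn.pair (Primrec.nat_iff.1 Primrec.id).recursiveIn (Nat.RecursiveIn.comp
      (Nat.RecursiveIn.oracle (O := {fun n => Part.some (g n)}) _ rfl)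
        (Primrec.nat_iff.1 q).recursiveIn))).of_eq fun n => by simp [Fn.orc, gf, Seq.seq])

end Pool.Agent.H.MP_65fbb9_lc
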